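import Mathlib
import Pool.Agent.Helper627.PM

set_option autoImplicit false

/-!
# The index argument

A map of the strip which preserves the leaves of a product foliation has no rectangle on whose
boundary the displacement satisfies the sign conditions of Poincare and Miranda.
-/

namespace Pool.Agent.TH229.Coin

open Set

/-- auxiliary: positive leafwise displacement on the boundary of the rectangle -/
theorem core_pos {S : Type*} [TopologicalSpace S] (ι : S → ℝ × ℝ) (hι : Continuous ι)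
    (hιi : Function.Injective ι)
    (H : S ≃ₜ ℝ × ℝ) {a b c e : ℝ} (hab : a ≤ b) (hce : c ≤ e)
    (p q : ℝ × ℝ → S) (hp : ContinuousOn p (Icc a b ×ˢ Icc c e))
    (hq : ContinuousOn q (Icc a b ×ˢ Icc c e))
    (hI : ∀ x ∈ Icc a b ×ˢ Icc c e, (H (q x)).2 = (H (p x)).2)
    (σ τ η : ℝ) (hη : η ≠ 0)
    (hpos : ∀ x ∈ Icc a b ×ˢ Icc c e, (x.1 = a ∨ x.1 = b ∨ x.2 = c ∨ x.2 = e) →
      η ^ 2 ≤ η * ((H (q x)).1 - (H (p x)).1))
    (hL : ∀ y ∈ Icc c e, σ * ((ι (q (a, y))).2 - (ι (p (a, y))).2) < 0)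
    (hR : ∀ y ∈ Icc c e, 0 < σ * ((ι (q (b, y))).2 - (ι (p (b, y))).2))
    (hB : ∀ x ∈ Icc a b, τ * ((ι (q (x, c))).1 - (ι (p (x, c))).1) < 0)
    (hT : ∀ x ∈ Icc a b, 0 < τ * ((ι (q (x, e))).1 - (ι (p (x, e))).1)) : False := by
  set R : Set (ℝ × ℝ) := Icc a b ×ˢ Icc c e with hRdef
  -- the amount of leafwise translation
  let m : ℝ × ℝ → ℝ := fun x => max (((H (q x)).1 - (H (p x)).1) / η) 1 * η
  have hHp : ContinuousOn (fun x => H (p x)) R := H.continuous.comp_continuousOn hp
  have hHq : ContinuousOn (fun x => H (q x)) R := H.continuous.comp_continuousOn hq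
  have hm : ContinuousOn m R := by
    refine ContinuousOn.mul (ContinuousOn.sup ?_ continuousOn_const) continuousOn_const
    exact ((continuous_fst.comp_continuousOn hHq).sub
      (continuous_fst.comp_continuousOn hHp)).div_const _
  have hm0 : ∀ x, m x ≠ 0 := by
    intro x
    have h1 : (1:ℝ) ≤ max (((H (q x)).1 - (H (p x)).1) / η) 1 := le_max_right _ _
    exact mul_ne_zero (by linarith) hη
  -- the translated point
  let g : ℝ × ℝ → S := fun x => H.symm ((H (p x)).1 + m x, (H (p x)).2)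
  have hg : ContinuousOn g R := by
    refine H.symm.continuous.comp_continuousOn ?_
    exact ((continuous_fst.comp_continuousOn hHp).add hm).prodMk
      (continuous_snd.comp_continuousOn hHp)
  have hgq : ∀ x ∈ R, (x.1 = a ∨ x.1 = b ∨ x.2 = c ∨ x.2 = e) → g x = q x := by
    intro x hx hb
    have h1 := hpos x hx hb
    have h2 : (1:ℝ) ≤ ((H (q x)).1 - (H (p x)).1) / η := by
      rcases lt_or_gt_of_ne hη with h | h
      · rw [le_div_iff_of_neg h]
        nlinarith
      · rw [le_div_iff₀ h]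
        nlinarith
    have h3 : m x = (H (q x)).1 - (H (p x)).1 := by
      simp only [m]
      rw [max_eq_left h2, div_mul_cancel₀ _ hη]
    simp only [g]
    rw [h3, H.symm_apply_eq]
    refine Prod.ext (by simp) ?_
    simpa using (hI x hx).symm
  have hgp : ∀ x, g x ≠ p x := by
    intro x hx
    have h1 : H (g x) = H (p x) := by rw [hx]
    simp only [g, Homeomorph.apply_symm_apply] at h1
    have h2 := congrArg Prod.fst h1
    simp only at h2
    exact hm0 x (by linarith)
  have hιp : ContinuousOn (fun x => ι (p x)) R := hι.comp_continuousOn hp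
  have hιg : ContinuousOn (fun x => ι (g x)) R := hι.comp_continuousOn hg
  have key := Pool.Agent.Helper627.PM.poincare_miranda a b c e hab hce
    (fun x => τ * ((ι (g x)).1 - (ι (p x)).1)) (fun x => σ * ((ι (g x)).2 - (ι (p x)).2))
    (continuousOn_const.mul ((continuous_fst.comp_continuousOn hιg).sub
      (continuous_fst.comp_continuousOn hιp)))
    (continuousOn_const.mul ((continuous_snd.comp_continuousOn hιg).sub
      (continuous_snd.comp_continuousOn hιp)))
    (fun y hy => by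
      have hx : (a, y) ∈ R := ⟨⟨le_rfl, hab⟩, hy⟩
      simpa [hgq _ hx (Or.inl rfl)] using hL y hy)
    (fun y hy => by
      have hx : (b, y) ∈ R := ⟨⟨hab, le_rfl⟩, hy⟩
      simpa [hgq _ hx (Or.inr (Or.inl rfl))] using hR y hy)
    (fun x hx' => by
      have hx : (x, c) ∈ R := ⟨hx', ⟨le_rfl, hce⟩⟩
      simpa [hgq _ hx (Or.inr (Or.inr (Or.inl rfl)))] using hB x hx')
    (fun x hx' => by
      have hx : (x, e) ∈ R := ⟨hx', ⟨hce, le_rfl⟩⟩
      simpa [hgq _ hx (Or.inr (Or.inr (Or.inr rfl)))] using hT x hx')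
  obtain ⟨x, hx, y, hy, h1, h2⟩ := key
  -- σ and τ are nonzero
  have hσ : σ ≠ 0 := by
    rintro rfl
    have := hR c ⟨le_rfl, hce⟩
    simp at this
  have hτ : τ ≠ 0 := by
    rintro rfl
    have := hT a ⟨le_rfl, hab⟩
    simp at this
  have e1 := (mul_eq_zero.mp h1).resolve_left hτ
  have e2 := (mul_eq_zero.mp h2).resolve_left hσ
  exact hgp (x, y) (hιi (Prod.ext (sub_eq_zero.mp e1) (sub_eq_zero.mp e2)))

/-- The index lemma: `p` is a rectangle in the surface `S` (with coordinates `ι`), `q x` lies on the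
leaf of `p x` of the foliation of `S` given by `H`; then the displacement cannot satisfy the sign
conditions of Poincare and Miranda on the boundary. -/
theorem core {S : Type*} [TopologicalSpace S] (ι : S → ℝ × ℝ) (hι : Continuous ι)
    (hιi : Function.Injective ι)
    (H : S ≃ₜ ℝ × ℝ) {a b c e : ℝ} (hab : a ≤ b) (hce : c ≤ e)
    (p q : ℝ × ℝ → S) (hp : ContinuousOn p (Icc a b ×ˢ Icc c e))
    (hq : ContinuousOn q (Icc a b ×ˢ Icc c e))
    (hI : ∀ x ∈ Icc a b ×ˢ Icc c e, (H (q x)).2 = (H (p x)).2)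
    (σ τ : ℝ)
    (hL : ∀ y ∈ Icc c e, σ * ((ι (q (a, y))).2 - (ι (p (a, y))).2) < 0)
    (hR : ∀ y ∈ Icc c e, 0 < σ * ((ι (q (b, y))).2 - (ι (p (b, y))).2))
    (hB : ∀ x ∈ Icc a b, τ * ((ι (q (x, c))).1 - (ι (p (x, c))).1) < 0)
    (hT : ∀ x ∈ Icc a b, 0 < τ * ((ι (q (x, e))).1 - (ι (p (x, e))).1)) : False := by
  set R : Set (ℝ × ℝ) := Icc a b ×ˢ Icc c e with hRdef
  -- the boundary of the rectangle
  let L1 : Set (ℝ × ℝ) := Icc a b ×ˢ {c}
  let L2 : Set (ℝ × ℝ) := {b} ×ˢ Icc c e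
  let L3 : Set (ℝ × ℝ) := Icc a b ×ˢ {e}
  let L4 : Set (ℝ × ℝ) := {a} ×ˢ Icc c e
  let B : Set (ℝ × ℝ) := ((L1 ∪ L2) ∪ L3) ∪ L4
  have ha : a ∈ Icc a b := ⟨le_rfl, hab⟩
  have hb : b ∈ Icc a b := ⟨hab, le_rfl⟩
  have hc : c ∈ Icc c e := ⟨le_rfl, hce⟩
  have he : e ∈ Icc c e := ⟨hce, le_rfl⟩
  have p1 : IsPreconnected L1 := isPreconnected_Icc.prod isPreconnected_singleton
  have p2 : IsPreconnected L2 := isPreconnected_singleton.prod isPreconnected_Icc
  have p3 : IsPreconnected L3 := isPreconnected_Icc.prod isPreconnected_singleton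
  have p4 : IsPreconnected L4 := isPreconnected_singleton.prod isPreconnected_Icc
  have pB : IsPreconnected B := by
    refine IsPreconnected.union (a, e) (Or.inr ⟨ha, rfl⟩) ⟨rfl, he⟩ ?_ p4
    refine IsPreconnected.union (b, e) (Or.inr ⟨rfl, he⟩) ⟨hb, rfl⟩ ?_ p3
    exact IsPreconnected.union (b, c) ⟨hb, rfl⟩ ⟨rfl, hc⟩ p1 p2
  have kB : IsCompact B :=
    (((isCompact_Icc.prod isCompact_singleton).union (isCompact_singleton.prod isCompact_Icc)).union
      (isCompact_Icc.prod isCompact_singleton)).union (isCompact_singleton.prod isCompact_Icc)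
  have hBR : B ⊆ R := by
    rintro ⟨x, y⟩ (((h | h) | h) | h)
    · exact ⟨h.1, by rw [show y = c from h.2]; exact hc⟩
    · exact ⟨by rw [show x = b from h.1]; exact hb, h.2⟩
    · exact ⟨h.1, by rw [show y = e from h.2]; exact he⟩
    · exact ⟨by rw [show x = a from h.1]; exact ha, h.2⟩
  have hRB : ∀ x ∈ R, (x.1 = a ∨ x.1 = b ∨ x.2 = c ∨ x.2 = e) → x ∈ B := by
    rintro ⟨x, y⟩ ⟨hx, hy⟩ (h | h | h | h)
    · exact Or.inr ⟨h, hy⟩
    · exact Or.inl (Or.inl (Or.inr ⟨h, hy⟩))
    · exact Or.inl (Or.inl (Or.inl ⟨hx, h⟩))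
    · exact Or.inl (Or.inr ⟨hx, h⟩)
  let u : ℝ × ℝ → ℝ := fun x => (H (q x)).1 - (H (p x)).1
  have hu : ContinuousOn u R :=
    (continuous_fst.comp_continuousOn (H.continuous.comp_continuousOn hq)).sub
      (continuous_fst.comp_continuousOn (H.continuous.comp_continuousOn hp))
  have hu0 : ∀ x ∈ B, u x ≠ 0 := by
    intro x hx h0
    have hpq : q x = p x := by
      apply H.injective
      exact Prod.ext (sub_eq_zero.mp h0) (hI x (hBR hx))
    obtain ⟨x, y⟩ := x
    rcases hx with ((h | h) | h) | h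
    · have h' : y = c := h.2
      subst h'
      have := hB x h.1
      rw [hpq] at this
      simp at this
    · have h' : x = b := h.1
      subst h'
      have := hR y h.2
      rw [hpq] at this
      simp at this
    · have h' : y = e := h.2
      subst h'
      have := hT x h.1
      rw [hpq] at this
      simp at this
    · have h' : x = a := h.1
      subst h'
      have := hL y h.2
      rw [hpq] at this
      simp at this
  have nB : B.Nonempty := ⟨(a, c), Or.inr ⟨rfl, hc⟩⟩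
  have huB : ContinuousOn u B := hu.mono hBR
  -- constant sign on the boundary
  have hsign : (∀ x ∈ B, 0 < u x) ∨ (∀ x ∈ B, u x < 0) := by
    by_contra hcon
    push Not at hcon
    obtain ⟨⟨x, hx, hx'⟩, ⟨y, hy, hy'⟩⟩ := hcon
    have := pB.intermediate_value hx hy huB (show (0:ℝ) ∈ Icc (u x) (u y) from ⟨hx', hy'⟩)
    obtain ⟨z, hz, hz'⟩ := this
    exact hu0 z hz hz'
  rcases hsign with hs | hs
  · obtain ⟨x₀, hx₀, hmin⟩ := kB.exists_isMinOn nB huB
    refine core_pos ι hι hιi H hab hce p q hp hq hI σ τ (u x₀) (hu0 _ hx₀) ?_ hL hR hB hT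
    intro x hx hxb
    have h1 : u x₀ ≤ u x := hmin (hRB x hx hxb)
    have h2 := hs x₀ hx₀
    have h3 : u x = (H (q x)).1 - (H (p x)).1 := rfl
    rw [← h3]
    nlinarith
  · obtain ⟨x₀, hx₀, hmax⟩ := kB.exists_isMaxOn nB huB
    refine core_pos ι hι hιi H hab hce p q hp hq hI σ τ (u x₀) (hu0 _ hx₀) ?_ hL hR hB hT
    intro x hx hxb
    have h1 : u x ≤ u x₀ := hmax (hRB x hx hxb)
    have h2 := hs x₀ hx₀
    have h3 : u x = (H (q x)).1 - (H (p x)).1 := rfl
    rw [← h3]
    nlinarith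

end Pool.Agent.TH229.Coin
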