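import Pool.Agent.H738R2.CylStmt

set_option autoImplicit false

/-!
# Total integrability of the geodesic map of a capped cylinder (problem MP_61130f_an)
-/

namespace Pool.Agent.TH229.Coin

open Pool.Agent.H738R2.Cyl Complex

/-- The phase cylinder is foliated by continuous closed curves which are not contractible in it and
each of which is invariant under `T`: there is a homeomorphism of the phase cylinder
`ℝ/Lℤ × (0, π)` onto `ℝ/Lℤ × ℝ` (the open annulus with its foliation by the circles
`ℝ/Lℤ × {c}`) such that `T` maps every curve `{z | (h z).2 = c}` into itself. -/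
def FoliatedByInvariantCurves {L : ℝ} (T : PhaseCylinder L → PhaseCylinder L) : Prop :=
  ∃ h : PhaseCylinder L ≃ₜ AddCircle L × ℝ, ∀ z, (h (T z)).2 = (h z).2

/-- `γ` is a circle. -/
def IsCircle (γ : ℝ → ℂ) : Prop := ∃ (c : ℂ) (R : ℝ), ∀ s, ‖γ s - c‖ = R

end Pool.Agent.TH229.Coin
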