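import Pool.Agent.TH229.Coin.Defs

set_option autoImplicit false

/-!
# Geometry of a strictly convex curve: curvature and the sign of `α₁ - α` for short chords
-/

namespace Pool.Agent.TH229.Coin

open Pool.Agent.H738R2.Cyl Complex Set
open scoped ComplexConjugate

/-- one integration step for the sign of a function with vanishing initial value -/
lemma step_pos {F F' : ℝ → ℝ} (h : ∀ u, HasDerivAt F (F' u) u) (h0 : F 0 = 0) {δ : ℝ}
    (hp : ∀ u, 0 < u → u ≤ δ → 0 < F' u) : ∀ u, 0 < u → u ≤ δ → 0 < F u := by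
  intro u hu hud
  obtain ⟨c, hc, hc'⟩ := exists_hasDerivAt_eq_slope F F' hu
    (fun x _ => (h x).continuousAt.continuousWithinAt) (fun x _ => h x)
  have h1 := hp c hc.1 (hc.2.le.trans hud)
  rw [hc', h0, sub_zero, sub_zero] at h1
  exact (div_pos_iff_of_pos_right hu).mp h1

lemma hasDerivAt_im {f : ℝ → ℂ} {f' : ℂ} {s : ℝ} (hf : HasDerivAt f f' s) :
    HasDerivAt (fun t => (f t).im) f'.im s :=
  (Complex.imCLM.hasFDerivAt).comp_hasDerivAt s hf

lemma hasDerivAt_re {f : ℝ → ℂ} {f' : ℂ} {s : ℝ} (hf : HasDerivAt f f' s) :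
    HasDerivAt (fun t => (f t).re) f'.re s :=
  (Complex.reCLM.hasFDerivAt).comp_hasDerivAt s hf

lemma hasDerivAt_conj {f : ℝ → ℂ} {f' : ℂ} {s : ℝ} (hf : HasDerivAt f f' s) :
    HasDerivAt (fun t => conj (f t)) (conj f') s :=
  (Complex.conjCLE.toContinuousLinearMap.hasFDerivAt (x := f s)).comp_hasDerivAt s hf

section
variable {γ : ℝ → ℂ} {L : ℝ}

/-- the curvature -/
noncomputable def curv (γ : ℝ → ℂ) (s : ℝ) : ℝ := (conj (deriv γ s) * deriv (deriv γ) s).im

variable (h : StrictlyConvexCurve γ L)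
include h

lemma smooth_d : ContDiff ℝ (⊤ : ℕ∞) (deriv γ) := by
  have := h.smooth
  exact (contDiff_infty_iff_deriv.mp this).2

lemma smooth_dd : ContDiff ℝ (⊤ : ℕ∞) (deriv (deriv γ)) :=
  (contDiff_infty_iff_deriv.mp (smooth_d h)).2

lemma hasDeriv (s : ℝ) : HasDerivAt γ (deriv γ s) s :=
  ((h.smooth.differentiable (by simp)) s).hasDerivAt

lemma hasDeriv_d (s : ℝ) : HasDerivAt (deriv γ) (deriv (deriv γ) s) s :=
  (((smooth_d h).differentiable (by simp)) s).hasDerivAt

lemma conj_mul_self (s : ℝ) : conj (deriv γ s) * deriv γ s = 1 := by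
  rw [mul_comm, Complex.mul_conj, Complex.normSq_eq_norm_sq, h.unit_speed s]
  norm_num

lemma re_zero (s : ℝ) : (conj (deriv γ s) * deriv (deriv γ) s).re = 0 := by
  have h1 : HasDerivAt (fun t => conj (deriv γ t) * deriv γ t)
      (conj (deriv (deriv γ) s) * deriv γ s + conj (deriv γ s) * deriv (deriv γ) s) s :=
    (hasDerivAt_conj (hasDeriv_d h s)).mul (hasDeriv_d h s)
  have h2 : (fun t => conj (deriv γ t) * deriv γ t) = fun _ => (1 : ℂ) := by
    funext t; exact conj_mul_self h t
  rw [h2] at h1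
  have h3 := h1.unique (hasDerivAt_const s (1:ℂ))
  have h4 := congrArg Complex.re h3
  simp only [Complex.add_re, Complex.mul_re, Complex.conj_re, Complex.conj_im,
    Complex.zero_re] at h4
  simp only [Complex.mul_re, Complex.conj_re, Complex.conj_im]
  linarith

lemma dd_eq (s : ℝ) : deriv (deriv γ) s = I * curv γ s * deriv γ s := by
  have h1 : conj (deriv γ s) * deriv (deriv γ) s = I * curv γ s := by
    apply Complex.ext
    · rw [re_zero h]; simp
    · simp [curv]
  have h2 : deriv (deriv γ) s = (deriv γ s * conj (deriv γ s)) * deriv (deriv γ) s := by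
    rw [mul_comm (deriv γ s), conj_mul_self h, one_mul]
  rw [h2, mul_assoc, h1]; ring

lemma hasDeriv_d' (s : ℝ) : HasDerivAt (deriv γ) (I * curv γ s * deriv γ s) s := by
  rw [← dd_eq h]; exact hasDeriv_d h s

lemma curv_smooth : ContDiff ℝ (⊤ : ℕ∞) (curv γ) := by
  have h1 : ContDiff ℝ (⊤ : ℕ∞) (fun s => conj (deriv γ s)) :=
    Complex.conjCLE.contDiff.comp (smooth_d h)
  have h2 : ContDiff ℝ (⊤ : ℕ∞) (fun s => conj (deriv γ s) * deriv (deriv γ) s) :=
    h1.mul (smooth_dd h)
  exact Complex.imCLM.contDiff.comp h2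

lemma d_periodic : Function.Periodic (deriv γ) L := by
  intro x
  have h1 : deriv (fun y => γ (y + L)) x = deriv γ (x + L) := deriv_comp_add_const _ _ _
  rw [← h1]
  congr 1
  funext y
  exact h.periodic y

lemma dd_periodic : Function.Periodic (deriv (deriv γ)) L := by
  intro x
  have h1 : deriv (fun y => deriv γ (y + L)) x = deriv (deriv γ) (x + L) :=
    deriv_comp_add_const _ _ _
  rw [← h1]
  congr 1
  funext y
  exact d_periodic h y

lemma curv_periodic : Function.Periodic (curv γ) L := by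
  intro x
  simp only [curv, d_periodic h x, dd_periodic h x]

lemma ne_of_lt {s u : ℝ} (hu : 0 < u) (huL : u < L) : γ (s + u) ≠ γ s := by
  intro he
  have h1 := h.coe_eq he
  rw [← sub_eq_zero, ← AddCircle.coe_sub, AddCircle.coe_eq_zero_iff] at h1
  obtain ⟨n, hn⟩ := h1
  have hL := h.length_pos
  simp only [zsmul_eq_mul, add_sub_cancel_left] at hn
  have h2 : (0:ℝ) < n := by
    by_contra hneg
    push Not at hneg
    nlinarith
  have h3 : (n:ℝ) < 1 := by
    by_contra hneg
    push Not at hneg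
    nlinarith
  have h2' : (0:ℤ) < n := by exact_mod_cast h2
  have h3' : n < (1:ℤ) := by exact_mod_cast h3
  omega

lemma nonneg_im (s t : ℝ) : 0 ≤ (conj (deriv γ s) * (γ t - γ s)).im := by
  by_cases he : γ t = γ s
  · rw [he]; simp
  · exact (h.strictly_convex s t he).le

/-- the curvature of a strictly convex curve is nonnegative -/
lemma curv_nonneg (s : ℝ) : 0 ≤ curv γ s := by
  by_contra hneg
  push Not at hneg
  let F : ℝ → ℝ := fun u => -(conj (deriv γ s) * (γ (s + u) - γ s)).im
  let F1 : ℝ → ℝ := fun u => -(conj (deriv γ s) * deriv γ (s + u)).im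
  let F2 : ℝ → ℝ := fun u => -(conj (deriv γ s) * deriv (deriv γ) (s + u)).im
  have d0 : ∀ u, HasDerivAt F (F1 u) u := by
    intro u
    have h1 : HasDerivAt (fun u => γ (s + u) - γ s) (deriv γ (s + u)) u := by
      have := (hasDeriv h (s + u)).comp_const_add s u
      simpa using this.sub_const (γ s)
    exact (hasDerivAt_im (h1.const_mul (conj (deriv γ s)))).fun_neg
  have d1 : ∀ u, HasDerivAt F1 (F2 u) u := by
    intro u
    have h1 : HasDerivAt (fun u => deriv γ (s + u)) (deriv (deriv γ) (s + u)) u :=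
      (hasDeriv_d h (s + u)).comp_const_add s u
    exact (hasDerivAt_im (h1.const_mul (conj (deriv γ s)))).fun_neg
  have c2 : Continuous F2 := by
    have : Continuous (deriv (deriv γ)) := (smooth_dd h).continuous
    fun_prop
  have hF2 : 0 < F2 0 := by
    simp only [F2, add_zero]
    have : (conj (deriv γ s) * deriv (deriv γ) s).im = curv γ s := rfl
    rw [this]; linarith
  obtain ⟨δ, hδ, hδ'⟩ := Metric.eventually_nhds_iff.mp
    (c2.continuousAt.eventually (lt_mem_nhds hF2))
  have e2 : ∀ u, 0 < u → u ≤ δ / 2 → 0 < F2 u := by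
    intro u hu hud
    apply hδ'
    rw [Real.dist_eq, sub_zero, abs_of_pos hu]; linarith
  have e1 := step_pos d1 (by
    simp only [F1, add_zero, conj_mul_self h]; simp) e2
  have e0 := step_pos d0 (by simp [F]) e1
  have := e0 (δ / 2) (by linarith) le_rfl
  have h3 := nonneg_im h s (s + δ / 2)
  simp only [F] at this
  linarith

lemma curv_pos_of_deriv_ne {s : ℝ} (hs : deriv (curv γ) s ≠ 0) : 0 < curv γ s := by
  rcases (curv_nonneg h s).lt_or_eq with h1 | h1
  · exact h1
  · exfalso
    apply hs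
    apply IsLocalMin.deriv_eq_zero
    refine Filter.Eventually.of_forall fun t => ?_
    rw [← h1]; exact curv_nonneg h t

/-- if all derivatives of the curvature are of one sign, it is constant -/
lemma curv_const_of_nonneg (hn : ∀ s, 0 ≤ deriv (curv γ) s) : ∀ s, curv γ s = curv γ 0 := by
  have hL := h.length_pos
  have hm : Monotone (curv γ) :=
    monotone_of_deriv_nonneg ((curv_smooth h).differentiable (by simp)) hn
  intro s
  obtain ⟨n, hn⟩ := exists_nat_gt (|s| / L)
  have h1 : |s| < n * L := by rwa [div_lt_iff₀ hL] at hn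
  have hp : ∀ (m : ℤ) (x : ℝ), curv γ (x + m * L) = curv γ x := by
    intro m x
    have := (curv_periodic h).zsmul m x
    simpa using this
  have h2 := abs_lt.mp h1
  apply le_antisymm
  · have := hm (show s ≤ 0 + ((n:ℤ):ℝ) * L by push_cast; linarith)
    rwa [hp] at this
  · have := hm (show 0 + ((-(n:ℤ) : ℤ):ℝ) * L ≤ s by push_cast; linarith)
    rwa [hp] at this

lemma curv_const_of_nonpos (hn : ∀ s, deriv (curv γ) s ≤ 0) : ∀ s, curv γ s = curv γ 0 := by
  have hL := h.length_pos
  have hm : Antitone (curv γ) :=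
    antitone_of_deriv_nonpos ((curv_smooth h).differentiable (by simp)) hn
  intro s
  obtain ⟨n, hn⟩ := exists_nat_gt (|s| / L)
  have h1 : |s| < n * L := by rwa [div_lt_iff₀ hL] at hn
  have hp : ∀ (m : ℤ) (x : ℝ), curv γ (x + m * L) = curv γ x := by
    intro m x
    have := (curv_periodic h).zsmul m x
    simpa using this
  have h2 := abs_lt.mp h1
  apply le_antisymm
  · have := hm (show 0 + ((-(n:ℤ) : ℤ):ℝ) * L ≤ s by push_cast; linarith)
    rwa [hp] at this
  · have := hm (show s ≤ 0 + ((n:ℤ):ℝ) * L by push_cast; linarith)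
    rwa [hp] at this

/-- constant curvature means a circle -/
lemma isCircle_of_curv_const (hc : ∀ s, curv γ s = curv γ 0) : IsCircle γ := by
  set k := curv γ 0 with hk
  have hL := h.length_pos
  by_cases hk0 : k = 0
  · exfalso
    have h1 : ∀ s, deriv (deriv γ) s = 0 := by
      intro s; rw [dd_eq h, hc s, hk0]; simp
    have h2 : ∀ s, deriv γ s = deriv γ 0 := fun s =>
      is_const_of_deriv_eq_zero ((smooth_d h).differentiable (by simp)) h1 s 0
    have h5 : ∀ s, HasDerivAt (fun s : ℝ => γ s - s * deriv γ 0) 0 s := by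
      intro s
      have h6 : HasDerivAt (fun s : ℝ => (s : ℂ) * deriv γ 0) (1 * deriv γ 0) s :=
        (Complex.ofRealCLM.hasDerivAt (x := s)).mul_const (deriv γ 0)
      have h7 := (hasDeriv h s).fun_sub h6
      rw [h2 s, one_mul, sub_self] at h7
      exact h7
    have h3 : ∀ s, γ s - s * deriv γ 0 = γ 0 := by
      intro s
      have := is_const_of_deriv_eq_zero (fun s => (h5 s).differentiableAt)
        (fun s => (h5 s).deriv) s 0
      simpa using this
    have h4 := h3 L
    have h5 : γ L = γ 0 := by simpa using h.periodic 0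
    rw [h5] at h4
    have h6 : (L:ℂ) * deriv γ 0 = 0 := by linear_combination -h4
    rcases mul_eq_zero.mp h6 with h7 | h7
    · exact hL.ne' (by exact_mod_cast h7)
    · exact deriv_ne_zero_of h 0 h7
  · refine ⟨γ 0 + I * (k:ℂ)⁻¹ * deriv γ 0, |k|⁻¹, fun s => ?_⟩
    have hk' : (k:ℂ) ≠ 0 := by exact_mod_cast hk0
    have h3 : ∀ s, γ s + I * (k:ℂ)⁻¹ * deriv γ s = γ 0 + I * (k:ℂ)⁻¹ * deriv γ 0 := by
      intro s
      have hd : ∀ s, HasDerivAt (fun s : ℝ => γ s + I * (k:ℂ)⁻¹ * deriv γ s) 0 s := by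
        intro s
        have := (hasDeriv h s).add ((hasDeriv_d' h s).const_mul (I * (k:ℂ)⁻¹))
        have e : deriv γ s + I * (k:ℂ)⁻¹ * (I * curv γ s * deriv γ s) = 0 := by
          rw [hc s]
          field_simp
          rw [Complex.I_sq]
          ring
        rw [e] at this
        exact this
      exact is_const_of_deriv_eq_zero (fun s => (hd s).differentiableAt)
        (fun s => (hd s).deriv) s 0
    rw [← h3 s]
    rw [show γ s - (γ s + I * (k:ℂ)⁻¹ * deriv γ s) = -(I * (k:ℂ)⁻¹ * deriv γ s) by ring]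
    rw [norm_neg, norm_mul, norm_mul, h.unit_speed s, Complex.norm_I, norm_inv, Complex.norm_real,
      Real.norm_eq_abs]
    ring

end

end Pool.Agent.TH229.Coin
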