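import Pool.Agent.TH229.Coin.Sign
import Pool.Agent.TH229.Coin.Core
import Pool.Agent.TH347.CoinLift

set_option autoImplicit false

/-!
# An integrable capped cylinder is round
-/

namespace Pool.Agent.TH229.Coin

open Pool.Agent.H738R2.Cyl Complex Set
open scoped ComplexConjugate

variable {γ : ℝ → ℂ} {L : ℝ}

noncomputable def z0 (γ : ℝ → ℂ) (s u : ℝ) : ℂ := conj (deriv γ s) * (γ (s + u) - γ s)
noncomputable def z1 (γ : ℝ → ℂ) (s u : ℝ) : ℂ := deriv γ (s + u) * conj (γ (s + u) - γ s)

lemma z0_im (h : StrictlyConvexCurve γ L) {s u : ℝ} (hu : 0 < u) (huL : u < L) :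
    0 < (z0 γ s u).im := h.strictly_convex s (s + u) (ne_of_lt h hu huL)

lemma z1_im (h : StrictlyConvexCurve γ L) {s u : ℝ} (hu : 0 < u) (huL : u < L) :
    0 < (z1 γ s u).im := by
  have := h.strictly_convex (s + u) s (ne_of_lt h hu huL).symm
  simp only [z1, Complex.mul_im, Complex.conj_re, Complex.conj_im, Complex.sub_re,
    Complex.sub_im] at this ⊢
  linarith

lemma arg_mem {z : ℂ} (hz : 0 < z.im) : arg z ∈ Ioo (0 : ℝ) Real.pi := by
  refine ⟨?_, Complex.arg_lt_pi_iff.mpr (Or.inr hz.ne')⟩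
  rcases (Complex.arg_nonneg_iff.mpr hz.le).lt_or_eq with h | h
  · exact h
  · exfalso
    have := Complex.sin_arg z
    rw [← h, Real.sin_zero] at this
    have hz0 : z ≠ 0 := by rintro rfl; simp at hz
    have h2 : 0 < ‖z‖ := norm_pos_iff.mpr hz0
    have h3 : 0 < z.im / ‖z‖ := div_pos hz h2
    linarith

lemma cot_arg {z : ℂ} (hz : 0 < z.im) : Real.cot (arg z) = z.re / z.im := by
  have hz0 : z ≠ 0 := by rintro rfl; simp at hz
  have h2 : 0 < ‖z‖ := norm_pos_iff.mpr hz0
  rw [Real.cot_eq_cos_div_sin, Complex.cos_arg hz0, Complex.sin_arg]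
  field_simp

lemma norm_z0 (h : StrictlyConvexCurve γ L) (s u : ℝ) : ‖z0 γ s u‖ = ‖γ (s + u) - γ s‖ := by
  rw [z0, norm_mul, RCLike.norm_conj, h.unit_speed, one_mul]

lemma norm_z1 (h : StrictlyConvexCurve γ L) (s u : ℝ) : ‖z1 γ s u‖ = ‖γ (s + u) - γ s‖ := by
  rw [z1, norm_mul, RCLike.norm_conj, h.unit_speed, one_mul]

lemma chord (h : StrictlyConvexCurve γ L) {s u : ℝ} (hu : 0 < u) (huL : u < L) :
    Chord γ s (arg (z0 γ s u)) (s + u) (arg (z1 γ s u)) := by
  have hD : 0 < ‖γ (s + u) - γ s‖ := norm_pos_iff.mpr (sub_ne_zero.mpr (ne_of_lt h hu huL))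
  have e0 : (‖γ (s + u) - γ s‖ : ℂ) * exp (arg (z0 γ s u) * I) = z0 γ s u := by
    rw [← norm_z0 h]; exact Complex.norm_mul_exp_arg_mul_I _
  have e1 : (‖γ (s + u) - γ s‖ : ℂ) * exp (arg (z1 γ s u) * I) = z1 γ s u := by
    rw [← norm_z1 h]; exact Complex.norm_mul_exp_arg_mul_I _
  have e1' : (‖γ (s + u) - γ s‖ : ℂ) * exp (-(arg (z1 γ s u) * I)) = conj (z1 γ s u) := by
    have e2 := congrArg (fun w : ℂ => conj w) e1
    simp only [map_mul, ← Complex.exp_conj, Complex.conj_ofReal, Complex.conj_I] at e2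
    rw [← e2, mul_neg]
  have f0 : (‖γ (s + u) - γ s‖ : ℂ) * (exp (arg (z0 γ s u) * I) * deriv γ s)
      = γ (s + u) - γ s := by
    rw [← mul_assoc, e0, z0]
    linear_combination (γ (s + u) - γ s) * conj_mul_self h s
  have f1 : (‖γ (s + u) - γ s‖ : ℂ) * (exp (-(arg (z1 γ s u) * I)) * deriv γ (s + u))
      = γ (s + u) - γ s := by
    rw [← mul_assoc, e1', z1, map_mul, Complex.conj_conj]
    linear_combination (γ (s + u) - γ s) * conj_mul_self h (s + u)
  refine ⟨‖γ (s + u) - γ s‖, hD, ?_, ?_⟩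
  · rw [f0]; ring
  · have hD' : (‖γ (s + u) - γ s‖ : ℂ) ≠ 0 := by exact_mod_cast hD.ne'
    exact mul_left_cancel₀ hD' (f0.trans f1.symm)

lemma cos_sub (h : StrictlyConvexCurve γ L) {s u : ℝ} (hu : 0 < u) (huL : u < L) :
    ‖γ (s + u) - γ s‖ * (Real.cos (arg (z1 γ s u)) - Real.cos (arg (z0 γ s u))) = Q γ s u := by
  have hD : 0 < ‖γ (s + u) - γ s‖ := norm_pos_iff.mpr (sub_ne_zero.mpr (ne_of_lt h hu huL))
  have n0 : z0 γ s u ≠ 0 := by
    intro h0; have := z0_im h (s := s) hu huL; rw [h0] at this; simp at this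
  have n1 : z1 γ s u ≠ 0 := by
    intro h0; have := z1_im h (s := s) hu huL; rw [h0] at this; simp at this
  rw [Complex.cos_arg n0, Complex.cos_arg n1, norm_z0 h, norm_z1 h]
  field_simp
  simp only [z0, z1, Q, Complex.mul_re, Complex.conj_re, Complex.conj_im, Complex.sub_re,
    Complex.sub_im]
  ring

lemma arg_lt_of_Q_neg (h : StrictlyConvexCurve γ L) {s u : ℝ} (hu : 0 < u) (huL : u < L)
    (hQ : Q γ s u < 0) : arg (z0 γ s u) < arg (z1 γ s u) := by
  have hD : 0 < ‖γ (s + u) - γ s‖ := norm_pos_iff.mpr (sub_ne_zero.mpr (ne_of_lt h hu huL))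
  have h1 := cos_sub h (s := s) hu huL
  have h2 : Real.cos (arg (z1 γ s u)) < Real.cos (arg (z0 γ s u)) := by
    by_contra hc
    push Not at hc
    have := mul_nonneg hD.le (sub_nonneg.mpr hc)
    linarith
  have m0 := arg_mem (z0_im h (s := s) hu huL)
  have m1 := arg_mem (z1_im h (s := s) hu huL)
  exact (Real.strictAntiOn_cos.lt_iff_gt ⟨m1.1.le, m1.2.le⟩ ⟨m0.1.le, m0.2.le⟩).mp h2

lemma arg_lt_of_Q_pos (h : StrictlyConvexCurve γ L) {s u : ℝ} (hu : 0 < u) (huL : u < L)
    (hQ : 0 < Q γ s u) : arg (z1 γ s u) < arg (z0 γ s u) := by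
  have hD : 0 < ‖γ (s + u) - γ s‖ := norm_pos_iff.mpr (sub_ne_zero.mpr (ne_of_lt h hu huL))
  have h1 := cos_sub h (s := s) hu huL
  have h2 : Real.cos (arg (z0 γ s u)) < Real.cos (arg (z1 γ s u)) := by
    by_contra hc
    push Not at hc
    have := mul_nonneg hD.le (sub_nonneg.mpr hc)
    linarith
  have m0 := arg_mem (z0_im h (s := s) hu huL)
  have m1 := arg_mem (z1_im h (s := s) hu huL)
  exact (Real.strictAntiOn_cos.lt_iff_gt ⟨m0.1.le, m0.2.le⟩ ⟨m1.1.le, m1.2.le⟩).mp h2

/-- the arrival angle of a short chord is small, uniformly -/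
lemma cot_large (h : StrictlyConvexCurve γ L) (a b M : ℝ) :
    ∃ δ > 0, ∀ u, 0 < u → u ≤ δ → u < L → ∀ s ∈ Icc a b, M < (z1 γ s u).re / (z1 γ s u).im := by
  have hL := h.length_pos
  obtain ⟨K, hK⟩ := (isCompact_Icc (a := a) (b := b + L)).exists_bound_of_continuousOn
    ((smooth_dd h).continuous.continuousOn)
  set K' := max K 1 with hK'
  have hK1 : 1 ≤ K' := le_max_right _ _
  refine ⟨1 / (K' * (|M| + 2)), by positivity, ?_⟩
  intro u hu hud huL s hs
  have hbd : ∀ t ∈ Icc s (s + u), ‖deriv γ t - deriv γ (s + u)‖ ≤ K' * u := by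
    intro t ht
    have h1 : ∀ x ∈ Icc s (s + u), ‖deriv (deriv γ) x‖ ≤ K' := by
      intro x hx
      exact (hK x ⟨hs.1.trans hx.1, hx.2.trans (by linarith [hs.2])⟩).trans (le_max_left _ _)
    have h2 := (convex_Icc s (s + u)).norm_image_sub_le_of_norm_hasDerivWithin_le
      (f := deriv γ) (f' := deriv (deriv γ)) (C := K')
      (fun x _ => (hasDeriv_d h x).hasDerivWithinAt) h1
      (show s + u ∈ Icc s (s + u) from ⟨by linarith, le_rfl⟩) ht
    refine h2.trans (mul_le_mul_of_nonneg_left ?_ (by linarith))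
    rw [Real.norm_eq_abs, abs_le]
    constructor <;> linarith [ht.1, ht.2]
  have hD : ‖γ (s + u) - γ s - u * deriv γ (s + u)‖ ≤ K' * u * u := by
    have h1 := (convex_Icc s (s + u)).norm_image_sub_le_of_norm_hasDerivWithin_le
      (f := fun t : ℝ => γ t - t * deriv γ (s + u))
      (f' := fun t => deriv γ t - 1 * deriv γ (s + u)) (C := K' * u)
      (fun x _ => ((hasDeriv h x).fun_sub
        ((Complex.ofRealCLM.hasDerivAt (x := x)).mul_const _)).hasDerivWithinAt)
      (fun x hx => by rw [one_mul]; exact hbd x hx)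
      (show s ∈ Icc s (s + u) from ⟨le_rfl, by linarith⟩)
      (show s + u ∈ Icc s (s + u) from ⟨by linarith, le_rfl⟩)
    have e : γ (s + u) - ((s + u : ℝ) : ℂ) * deriv γ (s + u) - (γ s - (s : ℂ) * deriv γ (s + u))
        = γ (s + u) - γ s - u * deriv γ (s + u) := by push_cast; ring
    simp only [e] at h1
    rwa [show s + u - s = u by ring, Real.norm_eq_abs, abs_of_pos hu] at h1
  -- z1 = u + small
  have hz : ‖z1 γ s u - u‖ ≤ K' * u * u := by
    have e : z1 γ s u - u = deriv γ (s + u) * conj (γ (s + u) - γ s - u * deriv γ (s + u)) := by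
      simp only [z1, map_sub, map_mul, Complex.conj_ofReal]
      linear_combination (u : ℂ) * conj_mul_self h (s + u)
    rw [e, norm_mul, RCLike.norm_conj, h.unit_speed, one_mul]
    exact hD
  have hre : u - K' * u * u ≤ (z1 γ s u).re := by
    have := (Complex.abs_re_le_norm (z1 γ s u - u)).trans hz
    rw [Complex.sub_re, Complex.ofReal_re] at this
    linarith [(abs_le.mp this).1]
  have him : (z1 γ s u).im ≤ K' * u * u := by
    have := (Complex.abs_im_le_norm (z1 γ s u - u)).trans hz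
    rw [Complex.sub_im, Complex.ofReal_im, sub_zero] at this
    exact (le_abs_self _).trans this
  have hpos := z1_im h (s := s) hu huL
  rw [lt_div_iff₀ hpos]
  have hM : M ≤ |M| := le_abs_self M
  have hM0 : 0 ≤ |M| := abs_nonneg M
  have h5 : K' * (|M| + 2) * u ≤ 1 := by
    rw [le_div_iff₀ (by positivity)] at hud
    linarith
  calc M * (z1 γ s u).im ≤ |M| * (z1 γ s u).im := mul_le_mul_of_nonneg_right hM hpos.le
    _ ≤ |M| * (K' * u * u) := mul_le_mul_of_nonneg_left him hM0
    _ < u - K' * u * u := by nlinarith [mul_pos (lt_of_lt_of_le one_pos hK1) (mul_pos hu hu)]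
    _ ≤ _ := hre

lemma cont_z0 (h : StrictlyConvexCurve γ L) : Continuous fun x : ℝ × ℝ => z0 γ x.1 x.2 := by
  have c0 : Continuous γ := h.smooth.continuous
  have c1 : Continuous (deriv γ) := (smooth_d h).continuous
  unfold z0
  exact (Complex.continuous_conj.comp (c1.comp continuous_fst)).mul
    ((c0.comp (continuous_fst.add continuous_snd)).sub (c0.comp continuous_fst))

lemma cont_z1 (h : StrictlyConvexCurve γ L) : Continuous fun x : ℝ × ℝ => z1 γ x.1 x.2 := by
  have c0 : Continuous γ := h.smooth.continuous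
  have c1 : Continuous (deriv γ) := (smooth_d h).continuous
  unfold z1
  exact (c1.comp (continuous_fst.add continuous_snd)).mul (Complex.continuous_conj.comp
    ((c0.comp (continuous_fst.add continuous_snd)).sub (c0.comp continuous_fst)))

/-- **Main theorem.** If the map `T = T₂ ∘ T₁` of the cylinder of height `d > 0` with a strictly
convex smooth base curve `γ` is integrable, then `γ` is a circle. -/
theorem isCircle_of_foliated {d : ℝ} {T₁ : PhaseCylinder L → PhaseCylinder L}
    (hγ : StrictlyConvexCurve γ L) (hd : 0 < d) (hT : IsBilliardMap γ L T₁)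
    (hF : FoliatedByInvariantCurves (cylinderMap L d ∘ T₁)) : IsCircle γ := by
  by_contra hnc
  have hL := hγ.length_pos
  obtain ⟨h, hinv⟩ := hF
  obtain ⟨H, hH⟩ := Pool.Agent.TH347.CoinLift.lift hL h
  -- points where the curvature increases, decreases
  have hA : ∃ a, 0 < deriv (curv γ) a := by
    by_contra hcon
    push Not at hcon
    exact hnc (isCircle_of_curv_const hγ (curv_const_of_nonpos hγ hcon))
  have hB : ∃ b, deriv (curv γ) b < 0 := by
    by_contra hcon
    push Not at hcon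
    exact hnc (isCircle_of_curv_const hγ (curv_const_of_nonneg hγ hcon))
  obtain ⟨a, ha⟩ := hA
  obtain ⟨b', hb'⟩ := hB
  obtain ⟨b, hb, hab⟩ : ∃ b, deriv (curv γ) b < 0 ∧ a ≤ b := by
    have hper : Function.Periodic (deriv (curv γ)) L := by
      intro x
      have h1 : deriv (fun y => curv γ (y + L)) x = deriv (curv γ) (x + L) :=
        deriv_comp_add_const _ _ _
      rw [← h1]
      congr 1
      funext y
      exact curv_periodic hγ y
    obtain ⟨n, hn⟩ := exists_nat_gt ((a - b') / L)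
    rw [div_lt_iff₀ hL] at hn
    refine ⟨b' + n * L, ?_, by linarith⟩
    have := hper.nat_mul n b'
    rw [this]; exact hb'
  have ka := curv_pos_of_deriv_ne hγ ha.ne'
  have kb := curv_pos_of_deriv_ne hγ hb.ne
  obtain ⟨δa, hδa, hQa⟩ := quartic hγ a (-1) (by nlinarith [mul_pos ka ha])
  obtain ⟨δb, hδb, hQb⟩ := quartic hγ b 1 (by nlinarith [mul_pos kb (neg_pos.mpr hb)])
  -- the upper side of the rectangle
  set e := min (min δa δb) (L / 2) with he
  have he0 : 0 < e := lt_min (lt_min hδa hδb) (by linarith)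
  have heL : e < L := (min_le_right _ _).trans_lt (by linarith)
  have hea : e ≤ δa := (min_le_left _ _).trans (min_le_left _ _)
  have heb : e ≤ δb := (min_le_left _ _).trans (min_le_right _ _)
  let ct : ℝ → ℝ → ℝ := fun s u => (z1 γ s u).re / (z1 γ s u).im
  have hcte : ContinuousOn (fun s => ct s e) (Icc a b) := by
    intro s _
    have c1 : Continuous fun s => z1 γ s e := (cont_z1 hγ).comp (continuous_id.prodMk continuous_const)
    exact ((Complex.continuous_re.comp c1).continuousAt.div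
      (Complex.continuous_im.comp c1).continuousAt (z1_im hγ he0 heL).ne').continuousWithinAt
  obtain ⟨M, hM⟩ := isCompact_Icc.exists_bound_of_continuousOn hcte
  obtain ⟨N, hN⟩ := exists_nat_gt ((e + d * M) / L)
  have hN' : e + d * M < N * L := by rwa [div_lt_iff₀ hL] at hN
  -- the lower side of the rectangle
  obtain ⟨δ, hδ, hcot⟩ := cot_large hγ a b (N * L / d)
  set c := min δ e with hcdef
  have hc0 : 0 < c := lt_min hδ he0
  have hce : c ≤ e := min_le_right _ _
  -- the rectangle and its image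
  have hub : ∀ y : Icc c e, 0 < y.1 ∧ y.1 < L := fun y =>
    ⟨hc0.trans_le y.2.1, y.2.2.trans_lt heL⟩
  let P : Icc a b × Icc c e → ℝ × Ioo (0 : ℝ) Real.pi := fun y =>
    (y.1.1, ⟨arg (z0 γ y.1.1 y.2.1), arg_mem (z0_im hγ (hub y.2).1 (hub y.2).2)⟩)
  let Qm : Icc a b × Icc c e → ℝ × Ioo (0 : ℝ) Real.pi := fun y =>
    (y.1.1 + y.2.1 + d * ct y.1.1 y.2.1 - N * L,
      ⟨arg (z1 γ y.1.1 y.2.1), arg_mem (z1_im hγ (hub y.2).1 (hub y.2).2)⟩)
  have cz0 : Continuous fun y : Icc a b × Icc c e => z0 γ y.1.1 y.2.1 :=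
    (cont_z0 hγ).comp ((continuous_subtype_val.comp continuous_fst).prodMk
      (continuous_subtype_val.comp continuous_snd))
  have cz1 : Continuous fun y : Icc a b × Icc c e => z1 γ y.1.1 y.2.1 :=
    (cont_z1 hγ).comp ((continuous_subtype_val.comp continuous_fst).prodMk
      (continuous_subtype_val.comp continuous_snd))
  have cP : Continuous P := by
    refine (continuous_subtype_val.comp continuous_fst).prodMk (Continuous.subtype_mk ?_ _)
    rw [continuous_iff_continuousAt]
    intro y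
    exact (Complex.continuousAt_arg (Or.inr (z0_im hγ (hub y.2).1 (hub y.2).2).ne')).comp
      (f := fun y : Icc a b × Icc c e => z0 γ y.1.1 y.2.1) cz0.continuousAt
  have cQ : Continuous Qm := by
    refine Continuous.prodMk ?_ (Continuous.subtype_mk ?_ _)
    · have c3 : Continuous fun y : Icc a b × Icc c e => ct y.1.1 y.2.1 := by
        rw [continuous_iff_continuousAt]
        intro y
        exact (Complex.continuous_re.comp cz1).continuousAt.div
          (Complex.continuous_im.comp cz1).continuousAt (z1_im hγ (hub y.2).1 (hub y.2).2).ne'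
      exact ((((continuous_subtype_val.comp continuous_fst).add
        (continuous_subtype_val.comp continuous_snd)).add (continuous_const.mul c3)).sub
        continuous_const)
    · rw [continuous_iff_continuousAt]
      intro y
      exact (Complex.continuousAt_arg (Or.inr (z1_im hγ (hub y.2).1 (hub y.2).2).ne')).comp
        (f := fun y : Icc a b × Icc c e => z1 γ y.1.1 y.2.1) cz1.continuousAt
  -- invariance
  have hinv' : ∀ y, (H (Qm y)).2 = (H (P y)).2 := by
    intro y
    rw [hH, hH]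
    have hch := chord hγ (s := y.1.1) (hub y.2).1 (hub y.2).2
    have hTz := IsBilliardMap.eq_of_chord hγ hT
      (α := ⟨arg (z0 γ y.1.1 y.2.1), arg_mem (z0_im hγ (hub y.2).1 (hub y.2).2)⟩)
      (α₁ := ⟨arg (z1 γ y.1.1 y.2.1), arg_mem (z1_im hγ (hub y.2).1 (hub y.2).2)⟩) hch
    have := hinv (((P y).1 : AddCircle L), (P y).2)
    rw [← this]
    congr 2
    simp only [Function.comp_apply, P]
    rw [hTz]
    simp only [cylinderMap, Qm]
    refine Prod.ext ?_ rfl
    simp only
    rw [cot_arg (z1_im hγ (hub y.2).1 (hub y.2).2)]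
    have e1 : ((y.1.1 + y.2.1 + d * ct y.1.1 y.2.1 - N * L : ℝ) : AddCircle L)
        = ((y.1.1 + y.2.1 + d * ct y.1.1 y.2.1 : ℝ) : AddCircle L) - ((N * L : ℝ) : AddCircle L) :=
      AddCircle.coe_sub L _ _
    have e2 : ((N * L : ℝ) : AddCircle L) = 0 := by
      rw [AddCircle.coe_eq_zero_iff]
      exact ⟨N, by simp⟩
    rw [e1, e2, sub_zero]
    exact AddCircle.coe_add L _ _
  let π' : ℝ × ℝ → Icc a b × Icc c e := fun x => (projIcc a b hab x.1, projIcc c e hce x.2)
  have cπ : Continuous π' :=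
    (continuous_projIcc.comp continuous_fst).prodMk (continuous_projIcc.comp continuous_snd)
  have hπ : ∀ (x : ℝ) (hx : x ∈ Icc a b) (y : ℝ) (hy : y ∈ Icc c e),
      π' (x, y) = (⟨x, hx⟩, ⟨y, hy⟩) := by
    intro x hx y hy
    simp only [π']
    rw [projIcc_of_mem hab hx, projIcc_of_mem hce hy]
  have ha' : a ∈ Icc a b := ⟨le_rfl, hab⟩
  have hb'' : b ∈ Icc a b := ⟨hab, le_rfl⟩
  have hc' : c ∈ Icc c e := ⟨le_rfl, hce⟩
  have he' : e ∈ Icc c e := ⟨hce, le_rfl⟩
  refine core (S := ℝ × Ioo (0 : ℝ) Real.pi) (fun z => (z.1, (z.2 : ℝ)))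
    (continuous_fst.prodMk (continuous_subtype_val.comp continuous_snd)) ?_ H hab hce
    (fun x => P (π' x)) (fun x => Qm (π' x)) (cP.comp cπ).continuousOn (cQ.comp cπ).continuousOn
    (fun x _ => hinv' _) (-1) (-1) ?_ ?_ ?_ ?_
  · rintro ⟨x1, x2⟩ ⟨y1, y2⟩ hxy
    simp only [Prod.mk.injEq] at hxy
    exact Prod.ext hxy.1 (Subtype.ext hxy.2)
  · intro y hy
    simp only [hπ a ha' y hy, P, Qm]
    have hy0 : 0 < y := hc0.trans_le hy.1
    have hyL : y < L := hy.2.trans_lt heL
    have h1 := hQa y hy0 (hy.2.trans hea)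
    have h2 := arg_lt_of_Q_neg hγ (s := a) hy0 hyL (by linarith)
    linarith
  · intro y hy
    simp only [hπ b hb'' y hy, P, Qm]
    have hy0 : 0 < y := hc0.trans_le hy.1
    have hyL : y < L := hy.2.trans_lt heL
    have h1 := hQb y hy0 (hy.2.trans heb)
    have h2 := arg_lt_of_Q_pos hγ (s := b) hy0 hyL (by linarith)
    linarith
  · intro x hx
    simp only [hπ x hx c hc', P, Qm]
    have h1 : N * L / d < ct x c := hcot c hc0 (min_le_left _ _) (hce.trans_lt heL) x hx
    rw [div_lt_iff₀ hd] at h1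
    nlinarith
  · intro x hx
    simp only [hπ x hx e he', P, Qm]
    have h1 : ct x e ≤ M := (le_abs_self _).trans (hM x hx)
    have h2 : d * ct x e ≤ d * M := mul_le_mul_of_nonneg_left h1 hd.le
    linarith

end Pool.Agent.TH229.Coin
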