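import Pool.Agent.TH229.Coin.Main
import Pool.Agent.TH902.CoinExist
import Pool.Agent.TH645.CoinCircle

/-!
# MP_61130f_an : the geodesic map of a capped cylinder is integrable only for circles

The definitions used by the statement are `StrictlyConvexCurve`, `PhaseCylinder`, `Chord`,
`IsBilliardMap`, `cylinderMap` (in `Pool/Agent/H738R2/CylStmt.lean`) and
`FoliatedByInvariantCurves`, `IsCircle` (in `Pool/Agent/TH229/Coin/Defs.lean`).

Idea. On the leaf of a foliation by invariant closed curves, `T` (lifted to the strip, and composed
with a translation by `-N L`) moves every point to the left, or to the right, or fixes it. Hence the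
displacement field on the boundary of a rectangle without fixed points on its boundary is homotopic
to the displacement field of a leafwise translation, which has no zero inside: the fixed point index
is zero. But if the curvature is not constant, take `a` and `b` where it increases and decreases:
close to `α = 0` the map `T₁` increases `α` over `a` and decreases `α` over `b`, and the shift
`d cot α₁ - N L` is positive for very small `α` and negative further up: by the theorem of Poincare
and Miranda the index of such a rectangle is `± 1`.
-/

set_option autoImplicit false

namespace Pool.Agent.TH229.Coin.OnlyCircles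

open Pool.Agent.H738R2.Cyl Pool.Agent.TH229.Coin

/-- Let `γ` be a closed `C^∞` strictly convex plane curve of length `L`. Its billiard map `T₁` exists
and is unique; and for every `d > 0` the map `T = T₂ ∘ T₁`, `T₂ (s, α) = (s + d cot α, α)`, is
integrable (the phase cylinder is foliated by non-contractible continuous closed curves, each of
them invariant under `T`) if and only if `γ` is a circle. -/
theorem integrable_iff_circle (γ : ℝ → ℂ) (L : ℝ) (hγ : StrictlyConvexCurve γ L) :
    (∃! T₁ : PhaseCylinder L → PhaseCylinder L, IsBilliardMap γ L T₁) ∧
    ∀ (T₁ : PhaseCylinder L → PhaseCylinder L), IsBilliardMap γ L T₁ → ∀ d : ℝ, 0 < d →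
      (FoliatedByInvariantCurves (cylinderMap L d ∘ T₁) ↔ IsCircle γ) :=
  ⟨Pool.Agent.TH902.CoinExist.exists_map hγ, fun _ hT _ hd =>
    ⟨isCircle_of_foliated hγ hd hT, Pool.Agent.TH645.CoinCircle.of_circle hγ hT⟩⟩

end Pool.Agent.TH229.Coin.OnlyCircles
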