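import Pool.Agent.TH229.Coin.Geom

set_option autoImplicit false

/-!
# The sign of `cos α₁ - cos α` for short chords
-/

namespace Pool.Agent.TH229.Coin

open Pool.Agent.H738R2.Cyl Complex Set
open scoped ComplexConjugate

variable {γ : ℝ → ℂ} {L : ℝ}

/-- `ℓ (cos α₁ - cos α)` for the chord from `γ s` to `γ (s + u)` -/
noncomputable def Q (γ : ℝ → ℂ) (s u : ℝ) : ℝ :=
  (conj (γ (s + u) - γ s) * (deriv γ (s + u) - deriv γ s)).re

theorem quartic (h : StrictlyConvexCurve γ L) (s σ : ℝ)
    (hσ : 0 < σ * -(2 * curv γ s * deriv (curv γ) s)) :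
    ∃ δ > 0, ∀ u, 0 < u → u ≤ δ → 0 < σ * Q γ s u := by
  have sm0 := curv_smooth h
  have sm1 : ContDiff ℝ (⊤ : ℕ∞) (deriv (curv γ)) := (contDiff_infty_iff_deriv.mp sm0).2
  have sm2 : ContDiff ℝ (⊤ : ℕ∞) (deriv (deriv (curv γ))) := (contDiff_infty_iff_deriv.mp sm1).2
  have sm3 : ContDiff ℝ (⊤ : ℕ∞) (deriv (deriv (deriv (curv γ)))) :=
    (contDiff_infty_iff_deriv.mp sm2).2
  set g0 := deriv γ s with hg0
  let D : ℝ → ℂ := fun u => γ (s + u) - γ s
  let G : ℝ → ℂ := fun u => deriv γ (s + u)
  let k : ℝ → ℝ := fun u => curv γ (s + u)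
  let k1 : ℝ → ℝ := fun u => deriv (curv γ) (s + u)
  let k2 : ℝ → ℝ := fun u => deriv (deriv (curv γ)) (s + u)
  let k3 : ℝ → ℝ := fun u => deriv (deriv (deriv (curv γ))) (s + u)
  have dD : ∀ u, HasDerivAt D (G u) u := by
    intro u
    have := (hasDeriv h (s + u)).comp_const_add s u
    exact this.sub_const (γ s)
  have dG : ∀ u, HasDerivAt G (I * k u * G u) u := fun u =>
    (hasDeriv_d' h (s + u)).comp_const_add s u
  have dk : ∀ u, HasDerivAt k (k1 u) u := fun u =>
    ((sm0.differentiable (by simp)) (s + u)).hasDerivAt.comp_const_add s u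
  have dk1 : ∀ u, HasDerivAt k1 (k2 u) u := fun u =>
    ((sm1.differentiable (by simp)) (s + u)).hasDerivAt.comp_const_add s u
  have dk2 : ∀ u, HasDerivAt k2 (k3 u) u := fun u =>
    ((sm2.differentiable (by simp)) (s + u)).hasDerivAt.comp_const_add s u
  have hGG : ∀ u, conj (G u) * G u = 1 := fun u => conj_mul_self h (s + u)
  let A : ℝ → ℝ := fun u => (conj g0 * G u).re
  let B : ℝ → ℝ := fun u => (conj g0 * G u).im
  let M : ℝ → ℝ := fun u => (conj (D u) * G u).im
  let N : ℝ → ℝ := fun u => (conj (D u) * G u).re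
  have dA : ∀ u, HasDerivAt A (-(k u * B u)) u := by
    intro u
    have := hasDerivAt_re ((dG u).const_mul (conj g0))
    refine this.congr_deriv ?_
    simp only [B, Complex.mul_re, Complex.mul_im, Complex.I_re, Complex.I_im, Complex.ofReal_re,
      Complex.ofReal_im, Complex.conj_re, Complex.conj_im]
    ring
  have dB : ∀ u, HasDerivAt B (k u * A u) u := by
    intro u
    have := hasDerivAt_im ((dG u).const_mul (conj g0))
    refine this.congr_deriv ?_
    simp only [A, Complex.mul_re, Complex.mul_im, Complex.I_re, Complex.I_im, Complex.ofReal_re,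
      Complex.ofReal_im, Complex.conj_re, Complex.conj_im]
    ring
  have dM : ∀ u, HasDerivAt M (k u * N u) u := by
    intro u
    have := hasDerivAt_im ((hasDerivAt_conj (dD u)).fun_mul (dG u))
    refine this.congr_deriv ?_
    rw [hGG u]
    simp only [N, Complex.mul_re, Complex.mul_im, Complex.I_re, Complex.I_im, Complex.ofReal_re,
      Complex.ofReal_im, Complex.conj_re, Complex.conj_im, Complex.add_im, Complex.one_im]
    ring
  have dN : ∀ u, HasDerivAt N (1 - k u * M u) u := by
    intro u
    have := hasDerivAt_re ((hasDerivAt_conj (dD u)).fun_mul (dG u))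
    refine this.congr_deriv ?_
    rw [hGG u]
    simp only [M, Complex.mul_re, Complex.mul_im, Complex.I_re, Complex.I_im, Complex.ofReal_re,
      Complex.ofReal_im, Complex.conj_re, Complex.conj_im, Complex.add_re, Complex.one_re]
    ring
  let F0 : ℝ → ℝ := fun u => σ * (conj (D u) * (G u - g0)).re
  let F1 : ℝ → ℝ := fun u => σ * (1 - A u - k u * M u)
  let F2 : ℝ → ℝ := fun u => σ * (k u * B u - k1 u * M u - k u ^ 2 * N u)
  let F3 : ℝ → ℝ := fun u => σ * (k1 u * B u + k u ^ 2 * A u - k2 u * M u - 3 * k u * k1 u * N u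
    - k u ^ 2 + k u ^ 3 * M u)
  let F4 : ℝ → ℝ := fun u => σ * (k2 u * B u + 3 * k u * k1 u * A u - k u ^ 3 * B u - k3 u * M u
    - 4 * k u * k2 u * N u - 3 * k1 u ^ 2 * N u - 3 * k u * k1 u * (1 - k u * M u)
    - 2 * k u * k1 u + 3 * k u ^ 2 * k1 u * M u + k u ^ 4 * N u)
  have d0 : ∀ u, HasDerivAt F0 (F1 u) u := by
    intro u
    have := (hasDerivAt_re ((hasDerivAt_conj (dD u)).fun_mul ((dG u).sub_const g0))).const_mul σ
    refine this.congr_deriv ?_
    have e1 : conj (G u) * (G u - g0) = 1 - conj (G u) * g0 := by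
      rw [mul_sub, hGG]
    rw [e1]
    simp only [F1, A, M, Complex.mul_re, Complex.mul_im, Complex.I_re, Complex.I_im,
      Complex.ofReal_re, Complex.ofReal_im, Complex.conj_re, Complex.conj_im, Complex.add_re,
      Complex.sub_re, Complex.one_re]
    ring
  have d1 : ∀ u, HasDerivAt F1 (F2 u) u := by
    intro u
    have := (((hasDerivAt_const u (1:ℝ)).sub (dA u)).sub ((dk u).mul (dM u))).const_mul σ
    refine this.congr_deriv ?_
    simp only [F2]
    ring
  have d2 : ∀ u, HasDerivAt F2 (F3 u) u := by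
    intro u
    have := ((((dk u).mul (dB u)).sub ((dk1 u).mul (dM u))).sub
      (((dk u).pow 2).mul (dN u))).const_mul σ
    refine this.congr_deriv ?_
    simp only [F3]
    push_cast
    simp only [Pi.pow_apply, Nat.add_one_sub_one]
    ring
  have d3 : ∀ u, HasDerivAt F3 (F4 u) u := by
    intro u
    have := (((((((dk1 u).mul (dB u)).add (((dk u).pow 2).mul (dA u))).sub
      ((dk2 u).mul (dM u))).sub ((((dk u).const_mul 3).mul (dk1 u)).mul (dN u))).sub
      ((dk u).pow 2)).add (((dk u).pow 3).mul (dM u))).const_mul σ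
    refine this.congr_deriv ?_
    simp only [F4]
    push_cast
    simp only [Pi.pow_apply, Pi.mul_apply, Nat.add_one_sub_one]
    ring
  have z0 : A 0 = 1 := by
    have := congrArg Complex.re (hGG 0)
    simp only [A, G, hg0, add_zero] at this ⊢
    simpa using this
  have z1 : B 0 = 0 := by
    have := congrArg Complex.im (hGG 0)
    simp only [B, G, hg0, add_zero] at this ⊢
    simpa using this
  have z2 : M 0 = 0 := by simp [M, D]
  have z3 : N 0 = 0 := by simp [N, D]
  have y0 : F0 0 = 0 := by simp [F0, D]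
  have y1 : F1 0 = 0 := by simp [F1, z0, z2]
  have y2 : F2 0 = 0 := by simp [F2, z1, z2, z3]
  have y3 : F3 0 = 0 := by simp [F3, z0, z1, z2, z3]
  have y4 : 0 < F4 0 := by
    have e : F4 0 = σ * -(2 * curv γ s * deriv (curv γ) s) := by
      simp only [F4, z0, z1, z2, z3, k, k1, add_zero]
      ring
    rw [e]; exact hσ
  have cγ : Continuous γ := h.smooth.continuous
  have cg : Continuous (deriv γ) := (smooth_d h).continuous
  have c0 : Continuous (curv γ) := sm0.continuous
  have c1 : Continuous (deriv (curv γ)) := sm1.continuous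
  have c2 : Continuous (deriv (deriv (curv γ))) := sm2.continuous
  have c3 : Continuous (deriv (deriv (deriv (curv γ)))) := sm3.continuous
  have cD : Continuous D := by fun_prop
  have cG : Continuous G := by fun_prop
  have cA : Continuous A := by fun_prop
  have cB : Continuous B := by fun_prop
  have cDc : Continuous (fun u => conj (D u)) := Complex.continuous_conj.comp cD
  have cM : Continuous M := Complex.continuous_im.comp (cDc.mul cG)
  have cN : Continuous N := Complex.continuous_re.comp (cDc.mul cG)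
  have ck : Continuous k := by fun_prop
  have ck1 : Continuous k1 := by fun_prop
  have ck2 : Continuous k2 := by fun_prop
  have ck3 : Continuous k3 := by fun_prop
  have c4 : Continuous F4 := by fun_prop
  obtain ⟨δ, hδ, hδ'⟩ := Metric.eventually_nhds_iff.mp
    (c4.continuousAt.eventually (lt_mem_nhds y4))
  refine ⟨δ / 2, by linarith, ?_⟩
  have e4 : ∀ u, 0 < u → u ≤ δ / 2 → 0 < F4 u := by
    intro u hu hud
    apply hδ'
    rw [Real.dist_eq, sub_zero, abs_of_pos hu]; linarith
  have e3 := step_pos d3 y3 e4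
  have e2 := step_pos d2 y2 e3
  have e1 := step_pos d1 y1 e2
  exact step_pos d0 y0 e1

end Pool.Agent.TH229.Coin
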